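import Pool.Agent.H85.KS2.Targets

/-!
Row HUA of the board ks2_modules (`MP_ff41bc_an`): Hua's lemma for the differenced power.
-/

set_option autoImplicit false

open Pool.Agent.H98.KS Pool.Agent.H85.KS2

namespace Pool.Agent.H32.KS2

/-- the differenced power as a polynomial -/
noncomputable def Ph (k : ℕ) (h : ℤ) : Polynomial ℤ :=
  (Polynomial.X + Polynomial.C h) ^ k - Polynomial.X ^ k

theorem Ph_eval (k : ℕ) (h : ℤ) : (fun u : ℤ => (Ph k h).eval u) = dl k h := by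
  funext u
  simp [Ph, dl]

theorem Ph_natDegree (k : ℕ) (h : ℤ) (hk : 1 ≤ k) (hh : h ≠ 0) : (Ph k h).natDegree = k - 1 := by
  refine Polynomial.natDegree_eq_of_le_of_coeff_ne_zero ?_ ?_
  · rw [Polynomial.natDegree_le_iff_coeff_eq_zero]
    intro m hm
    rw [Ph, Polynomial.coeff_sub, Polynomial.coeff_X_add_C_pow, Polynomial.coeff_X_pow]
    by_cases h1 : m = k
    · rw [if_pos h1, h1]
      simp
    · rw [if_neg h1, Nat.choose_eq_zero_of_lt (by omega)]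
      simp
  · rw [Ph, Polynomial.coeff_sub, Polynomial.coeff_X_add_C_pow, Polynomial.coeff_X_pow,
      if_neg (by omega)]
    have h1 : k - (k - 1) = 1 := by omega
    rw [h1, pow_one, sub_zero]
    refine mul_ne_zero hh ?_
    have h2 : 0 < k.choose (k - 1) := Nat.choose_pos (by omega)
    exact_mod_cast h2.ne'

theorem card_JJ (L : ℕ) : (JJ L).card = 16 * L + 1 := by
  rw [JJ, Int.card_Icc]
  omega

theorem dl_le (k L : ℕ) (h u : ℤ) (hh : h ∈ HH L) (hu : u ∈ JJ L) :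
    |dl k h u| ≤ 2 * (16 * (L : ℤ)) ^ k := by
  have h1 : |h| ≤ 8 * L := by
    have h2 := Finset.mem_of_mem_erase hh
    rw [JJ, Finset.mem_Icc] at h2
    exact abs_le.mpr h2
  have h2 : |u| ≤ 8 * L := by
    rw [JJ, Finset.mem_Icc] at hu
    exact abs_le.mpr hu
  have h3 : |u + h| ≤ 16 * L := (abs_add_le u h).trans (by linarith)
  have h4 : |u + h| ^ k ≤ (16 * (L : ℤ)) ^ k := pow_le_pow_left₀ (abs_nonneg _) h3 k
  have h5 : |u| ^ k ≤ (16 * (L : ℤ)) ^ k :=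
    pow_le_pow_left₀ (abs_nonneg _) (h2.trans (by linarith)) k
  calc |dl k h u| ≤ |(u + h) ^ k| + |u ^ k| := abs_sub _ _
    _ = |u + h| ^ k + |u| ^ k := by rw [abs_pow, abs_pow]
    _ ≤ 2 * (16 * (L : ℤ)) ^ k := by linarith

/-- the induction -/
def QQ (k j : ℕ) : Prop := ∀ ε : ℝ, 0 < ε → ∃ C : ℝ, 0 < C ∧ ∀ L : ℕ, 1 ≤ L → ∀ h ∈ HH L,
  (rr (2 ^ (j - 1)) (JJ L) (dl k h) : ℝ) ≤ C * (L : ℝ) ^ (((2 ^ j : ℕ) : ℝ) - j + ε)

theorem base (hHC : T_HC) (k : ℕ) (hk : 3 ≤ k) : QQ k 1 := by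
  classical
  intro ε hε
  refine ⟨17 * k, by positivity, fun L hL h hh => ?_⟩
  have hh0 : h ≠ 0 := (Finset.mem_erase.mp hh).1
  have hfib : ∀ n : ℤ, ((JJ L).filter fun u => dl k h u = n).card ≤ k := by
    intro n
    have h1 := hHC (16 * L + 1) 0 (JJ L) (Ph k h)
      (by rw [Ph_natDegree k h (by omega) hh0]; omega) (by rw [card_JJ])
    rw [Ph_eval, Ph_natDegree k h (by omega) hh0] at h1
    by_cases hn : n = 0
    · have h2 := h1.1
      rw [hn]
      simp only [pow_zero, mul_one, add_zero, CN] at h2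
      omega
    · have h2 := h1.2 n hn
      simp only [pow_zero, mul_one, CN] at h2
      omega
  have h2 : rr (2 ^ (1 - 1)) (JJ L) (dl k h) ≤ (16 * L + 1) * k := by
    have e : 2 ^ (1 - 1) = 1 := rfl
    rw [e]
    unfold rr
    calc (((Fintype.piFinset fun _ : Fin 1 => JJ L) ×ˢ
          (Fintype.piFinset fun _ : Fin 1 => JJ L)).filter
          fun p => ∑ i, dl k h (p.1 i) = ∑ i, dl k h (p.2 i)).card
        ≤ ((JJ L).biUnion fun v => ((JJ L).filter fun u => dl k h u = dl k h v).image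
          fun u => (u, v)).card := by
          refine Finset.card_le_card_of_injOn (fun p => (p.1 0, p.2 0)) ?_ ?_
          · intro p hp
            rw [Finset.mem_coe, Finset.mem_filter, Finset.mem_product, Fintype.mem_piFinset,
              Fintype.mem_piFinset] at hp
            rw [Finset.mem_coe, Finset.mem_biUnion]
            refine ⟨p.2 0, hp.1.2 0, Finset.mem_image.mpr ⟨p.1 0, ?_, rfl⟩⟩
            rw [Finset.mem_filter]
            refine ⟨hp.1.1 0, ?_⟩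
            simpa using hp.2
          · intro p _ q _ hpq
            simp only [Prod.mk.injEq] at hpq
            refine Prod.ext (funext fun i => ?_) (funext fun i => ?_)
            · rw [Subsingleton.elim i 0]
              exact hpq.1
            · rw [Subsingleton.elim i 0]
              exact hpq.2
      _ ≤ (JJ L).card * k := Finset.card_biUnion_le_card_mul _ _ _ fun v _ =>
          Finset.card_image_le.trans (hfib _)
      _ = (16 * L + 1) * k := by rw [card_JJ]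
  have hL1 : (1 : ℝ) ≤ L := by exact_mod_cast hL
  calc (rr (2 ^ (1 - 1)) (JJ L) (dl k h) : ℝ) ≤ ((16 * L + 1) * k : ℕ) := by exact_mod_cast h2
    _ ≤ 17 * k * (L : ℝ) := by
      push_cast
      nlinarith [(Nat.cast_nonneg k : (0 : ℝ) ≤ k)]
    _ = 17 * k * (L : ℝ) ^ (1 : ℝ) := by rw [Real.rpow_one]
    _ ≤ 17 * k * (L : ℝ) ^ (((2 ^ 1 : ℕ) : ℝ) - (1 : ℕ) + ε) := by
      refine mul_le_mul_of_nonneg_left (Real.rpow_le_rpow_of_exponent_le hL1 ?_) (by positivity)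
      norm_num
      linarith

theorem step (hHI : T_HI) (hHC : T_HC) (hHB : T_HB) (hDB : T_DB) (k j : ℕ) (hk : 3 ≤ k)
    (hj : 1 ≤ j) (hjk : j + 2 ≤ k) (hQ : QQ k j) : QQ k (j + 1) := by
  intro ε hε
  obtain ⟨C, hC, hQ⟩ := hQ ε hε
  -- the divisor bound
  obtain ⟨ε', hε'⟩ : ∃ ε' : ℝ, ε' = ε / (k * j) := ⟨_, rfl⟩
  have hkj : (0 : ℝ) < (k : ℝ) * j := by
    have h1 : 0 < k := by omega
    have h2 : 0 < j := by omega
    have h3 : 0 < k * j := Nat.mul_pos h1 h2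
    exact_mod_cast h3
  have hε'0 : 0 < ε' := by
    rw [hε']
    positivity
  obtain ⟨C', hC', hD⟩ := hDB ε' hε'0
  obtain ⟨G, hG⟩ : ∃ G : ℝ, G = (k : ℝ) * (2 * (C' * (2 ^ j * 2 * 16 ^ k : ℝ) ^ ε')) ^ j :=
    ⟨_, rfl⟩
  have hG0 : 0 ≤ G := by
    rw [hG]
    positivity
  refine ⟨(34 : ℝ) ^ (2 ^ j - j - 1) * ((2 * k : ℝ) * 34 ^ j * C + 17 ^ (2 ^ j) * G) + 1,
    by positivity, fun L hL h hh => ?_⟩
  have hh0 : h ≠ 0 := (Finset.mem_erase.mp hh).1
  have hL1 : (1 : ℝ) ≤ L := by exact_mod_cast hL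
  have hL0 : (0 : ℝ) < L := by linarith
  obtain ⟨N, hN⟩ : ∃ N : ℕ, N = 16 * L + 1 := ⟨_, rfl⟩
  have hdeg := Ph_natDegree k h (by omega) hh0
  have hHC' := hHC N j (JJ L) (Ph k h) (by rw [hdeg]; omega) (by rw [card_JJ, hN])
  rw [Ph_eval, hdeg] at hHC'
  obtain ⟨K, hK⟩ : ∃ K : ℕ, K = ⌊G * (L : ℝ) ^ ε⌋₊ := ⟨_, rfl⟩
  have hKu : (K : ℝ) ≤ G * (L : ℝ) ^ ε := by
    rw [hK]
    exact Nat.floor_le (by positivity)
  have hCN : ∀ n : ℤ, n ≠ 0 → CN N j (JJ L) (dl k h) n ≤ K := by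
    intro n hn
    by_cases hnB : 2 ^ j * (2 * (16 * (L : ℤ)) ^ k) < |n|
    · rw [hHB N j (JJ L) (dl k h) (2 * (16 * (L : ℤ)) ^ k)
        (fun u hu => dl_le k L h u hh hu) n hnB]
      exact Nat.zero_le _
    · rw [not_lt] at hnB
      rw [hK]
      refine Nat.le_floor ?_
      have h1 := hHC'.2 n hn
      have h2 : (1 : ℕ) ≤ n.natAbs := Int.natAbs_pos.mpr hn
      have h3 := hD n.natAbs h2
      have h4 : ((n.natAbs : ℕ) : ℝ) ≤ (2 ^ j * 2 * 16 ^ k : ℝ) * (L : ℝ) ^ k := by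
        have h5 : ((n.natAbs : ℕ) : ℤ) ≤ 2 ^ j * (2 * (16 * (L : ℤ)) ^ k) := by
          rw [Int.natCast_natAbs]
          exact hnB
        have h6 : ((n.natAbs : ℕ) : ℝ) ≤ 2 ^ j * (2 * (16 * (L : ℝ)) ^ k) := by exact_mod_cast h5
        refine h6.trans (le_of_eq ?_)
        rw [mul_pow]
        ring
      have h5 : ((n.natAbs : ℕ) : ℝ) ^ ε' ≤
          (2 ^ j * 2 * 16 ^ k : ℝ) ^ ε' * (L : ℝ) ^ (ε / j) := by
        calc ((n.natAbs : ℕ) : ℝ) ^ ε' ≤ ((2 ^ j * 2 * 16 ^ k : ℝ) * (L : ℝ) ^ k) ^ ε' :=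
              Real.rpow_le_rpow (Nat.cast_nonneg _) h4 hε'0.le
          _ = (2 ^ j * 2 * 16 ^ k : ℝ) ^ ε' * ((L : ℝ) ^ k) ^ ε' :=
              Real.mul_rpow (by positivity) (by positivity)
          _ = (2 ^ j * 2 * 16 ^ k : ℝ) ^ ε' * (L : ℝ) ^ (ε / j) := by
              have e0 : ((L : ℝ) ^ k) ^ ε' = (L : ℝ) ^ (ε / j) := by
                rw [← Real.rpow_natCast (L : ℝ) k, ← Real.rpow_mul hL0.le]
                congr 1
                rw [hε']
                have h7 : (k : ℝ) ≠ 0 := by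
                  have : k ≠ 0 := by omega
                  exact_mod_cast this
                field_simp
              rw [e0]
      have h6 : ((n.natAbs.divisors.card : ℕ) : ℝ) ≤
          C' * (2 ^ j * 2 * 16 ^ k : ℝ) ^ ε' * (L : ℝ) ^ (ε / j) := by
        refine h3.trans ?_
        rw [mul_assoc]
        exact mul_le_mul_of_nonneg_left h5 hC'.le
      have h7 : ((L : ℝ) ^ (ε / j)) ^ j = (L : ℝ) ^ ε := by
        rw [← Real.rpow_natCast, ← Real.rpow_mul hL0.le]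
        congr 1
        have : (j : ℝ) ≠ 0 := by
          have : j ≠ 0 := by omega
          exact_mod_cast this
        field_simp
      calc (CN N j (JJ L) (dl k h) n : ℝ)
          ≤ (((k - 1) * (2 * n.natAbs.divisors.card) ^ j : ℕ) : ℝ) := by exact_mod_cast h1
        _ = ((k - 1 : ℕ) : ℝ) * (2 * (n.natAbs.divisors.card : ℝ)) ^ j := by push_cast; ring
        _ ≤ (k : ℝ) * (2 * (C' * (2 ^ j * 2 * 16 ^ k : ℝ) ^ ε' * (L : ℝ) ^ (ε / j))) ^ j := by
            refine mul_le_mul ?_ ?_ (by positivity) (by positivity)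
            · exact_mod_cast Nat.sub_le k 1
            · refine pow_le_pow_left₀ (by positivity) ?_ j
              exact mul_le_mul_of_nonneg_left h6 (by norm_num)
        _ = G * (L : ℝ) ^ ε := by
            rw [hG, ← h7]
            ring
  have hmain := hHI N j K (JJ L) (dl k h) hj (by
    intro u hu w hw
    rw [JJ, Finset.mem_Icc] at hu hw
    rw [hN, abs_lt]
    push_cast
    constructor <;> linarith [hu.1, hu.2, hw.1, hw.2]) hCN
  rw [card_JJ] at hmain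
  have hq := hQ L hL h hh
  have hmainR : (rr (2 ^ j) (JJ L) (dl k h) : ℝ) ≤ (2 * (N : ℝ)) ^ (2 ^ j - j - 1) *
      ((CN N j (JJ L) (dl k h) 0 : ℝ) * rr (2 ^ (j - 1)) (JJ L) (dl k h) +
        (16 * (L : ℝ) + 1) ^ (2 ^ j) * K) := by exact_mod_cast hmain
  have hN2 : 2 * (N : ℝ) ≤ 34 * L := by
    rw [hN]
    push_cast
    linarith
  have hN0 : (0 : ℝ) ≤ 2 * (N : ℝ) := by positivity
  have h0 : (CN N j (JJ L) (dl k h) 0 : ℝ) ≤ 2 * k * (34 * (L : ℝ)) ^ j := by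
    have h1 := hHC'.1
    calc (CN N j (JJ L) (dl k h) 0 : ℝ) ≤ (((k - 1 + j) * (2 * N) ^ j : ℕ) : ℝ) := by
          exact_mod_cast h1
      _ = ((k - 1 + j : ℕ) : ℝ) * (2 * (N : ℝ)) ^ j := by push_cast; ring
      _ ≤ 2 * k * (34 * (L : ℝ)) ^ j := by
          refine mul_le_mul ?_ (pow_le_pow_left₀ hN0 hN2 j) (by positivity) (by positivity)
          have h2 : k - 1 + j ≤ 2 * k := by omega
          exact_mod_cast h2
  -- exponents
  have hjj : j + 1 ≤ 2 ^ j := Nat.lt_two_pow_self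
  obtain ⟨a, ha⟩ : ∃ a : ℕ, 2 ^ j = a + j + 1 := ⟨2 ^ j - j - 1, by omega⟩
  have ha' : 2 ^ j - j - 1 = a := by omega
  have e1 : (L : ℝ) ^ a * ((L : ℝ) ^ j * (L : ℝ) ^ (((2 ^ j : ℕ) : ℝ) - j + ε)) =
      (L : ℝ) ^ (((2 ^ (j + 1) : ℕ) : ℝ) - ((j + 1 : ℕ) : ℝ) + ε) := by
    rw [← Real.rpow_natCast, ← Real.rpow_natCast, ← Real.rpow_add hL0, ← Real.rpow_add hL0]
    congr 1
    rw [pow_succ, ha]
    push_cast
    ring
  have e2 : (L : ℝ) ^ a * ((L : ℝ) ^ (2 ^ j) * (L : ℝ) ^ ε) =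
      (L : ℝ) ^ (((2 ^ (j + 1) : ℕ) : ℝ) - ((j + 1 : ℕ) : ℝ) + ε) := by
    rw [← Real.rpow_natCast, ← Real.rpow_natCast, ← Real.rpow_add hL0, ← Real.rpow_add hL0]
    congr 1
    rw [pow_succ, ha]
    push_cast
    ring
  have hE0 : 0 ≤ (L : ℝ) ^ (((2 ^ (j + 1) : ℕ) : ℝ) - ((j + 1 : ℕ) : ℝ) + ε) := by positivity
  have e3 : j + 1 - 1 = j := rfl
  rw [e3]
  calc (rr (2 ^ j) (JJ L) (dl k h) : ℝ)
      ≤ (34 * (L : ℝ)) ^ a * ((2 * k * (34 * (L : ℝ)) ^ j) *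
        (C * (L : ℝ) ^ (((2 ^ j : ℕ) : ℝ) - j + ε)) + (17 * (L : ℝ)) ^ (2 ^ j) *
          (G * (L : ℝ) ^ ε)) := by
        refine hmainR.trans ?_
        rw [ha']
        refine mul_le_mul (pow_le_pow_left₀ hN0 hN2 a) ?_ (by positivity) (by positivity)
        refine add_le_add (mul_le_mul h0 hq (by positivity) (by positivity)) ?_
        refine mul_le_mul (pow_le_pow_left₀ (by positivity) (by linarith) _) hKu
          (by positivity) (by positivity)
    _ = (34 : ℝ) ^ a * ((2 * k : ℝ) * 34 ^ j * C *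
          ((L : ℝ) ^ a * ((L : ℝ) ^ j * (L : ℝ) ^ (((2 ^ j : ℕ) : ℝ) - j + ε))) +
          17 ^ (2 ^ j) * G * ((L : ℝ) ^ a * ((L : ℝ) ^ (2 ^ j) * (L : ℝ) ^ ε))) := by
        rw [mul_pow, mul_pow, mul_pow]
        ring
    _ = (34 : ℝ) ^ (2 ^ j - j - 1) * ((2 * k : ℝ) * 34 ^ j * C + 17 ^ (2 ^ j) * G) *
          (L : ℝ) ^ (((2 ^ (j + 1) : ℕ) : ℝ) - ((j + 1 : ℕ) : ℝ) + ε) := by
        rw [e1, e2, ha']
        ring
    _ ≤ _ := by
        refine mul_le_mul_of_nonneg_right ?_ hE0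
        linarith

/-- HUA -/
theorem ks2_HUA (hHI : T_HI) (hHC : T_HC) (hHB : T_HB) (hDB : T_DB) : T_HUA := by
  intro k hk
  have h1 : ∀ j : ℕ, j + 2 ≤ k → QQ k (j + 1) := by
    intro j
    induction j with
    | zero => intro _; exact base hHC k hk
    | succ j ih =>
      intro hj
      exact step hHI hHC hHB hDB k (j + 1) hk (by omega) (by omega) (ih (by omega))
  obtain ⟨m, rfl⟩ : ∃ m, k = m + 2 := ⟨k - 2, by omega⟩
  have h2 := h1 m (by omega)
  intro ε hε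
  obtain ⟨C, hC, h⟩ := h2 ε hε
  refine ⟨C, hC, fun L hL x hx => ?_⟩
  have h3 := h L hL x hx
  have e : m + 2 - 2 = m := rfl
  have e' : m + 1 - 1 = m := rfl
  rw [e'] at h3
  rw [e]
  refine h3.trans (le_of_eq ?_)
  congr 2
  rw [pow_succ]
  push_cast
  ring

end Pool.Agent.H32.KS2
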