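import Pool.Agent.H85.KS2.Targets

/-!
Row RC of the board ks2_modules (`MP_ff41bc_an`): (II.4).
-/

set_option autoImplicit false

open Pool.Agent.H98.KS Pool.Agent.H85.KS2

namespace Pool.Agent.H32.KS2

theorem ee_cont' : Continuous ee := by
  unfold ee
  fun_prop

theorem ZV_nonneg (hV2 : T_V2) (k L v : ℕ) (hL : 1 ≤ L) (θ : ℝ) : 0 ≤ ZV k L v θ :=
  Finset.sum_nonneg fun h _ => pow_nonneg ((hV2 k L h hL).1 θ).1 v

theorem ZV_cont (hV2 : T_V2) (k L v : ℕ) (hL : 1 ≤ L) : Continuous fun θ => ZV k L v θ := by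
  unfold ZV
  exact continuous_finsetSum _ fun h _ => ((hV2 k L h hL).2).pow v

theorem GS_cont (k d : ℕ) (F : Finset (Fin d → ℤ)) (c : Fin d → Bool) (x : Fin d → ℤ) :
    Continuous fun θ => GS k F c θ x := by
  unfold GS
  exact continuous_finsetSum _ fun y _ => ee_cont'.comp (continuous_id.mul continuous_const)

theorem sqrt_sum_le {ι : Type*} (s : Finset ι) (f : ι → ℝ) (hf : ∀ i ∈ s, 0 ≤ f i) :
    Real.sqrt (∑ i ∈ s, f i) ≤ ∑ i ∈ s, Real.sqrt (f i) := by
  classical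
  rw [Real.sqrt_le_left (Finset.sum_nonneg fun i _ => Real.sqrt_nonneg _)]
  induction s using Finset.induction_on with
  | empty => simp
  | insert a s ha ih =>
    rw [Finset.sum_insert ha, Finset.sum_insert ha]
    have h1 := ih fun i hi => hf i (Finset.mem_insert_of_mem hi)
    have h2 := Real.sq_sqrt (hf a (Finset.mem_insert_self a s))
    have h3 : 0 ≤ ∑ i ∈ s, Real.sqrt (f i) := Finset.sum_nonneg fun i _ => Real.sqrt_nonneg _
    nlinarith [mul_nonneg (Real.sqrt_nonneg (f a)) h3]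

/-- RC -/
theorem ks2_RC (hV2 : T_V2) (hIZ : T_IZ) (hRS : T_RS) (hRW : T_RW) (hRH : T_RH) : T_RC := by
  classical
  intro k d v hv hZB ε hε
  have hv0 : (0 : ℝ) < v := by exact_mod_cast hv
  -- constants for every `w`
  have hC : ∀ w : ℕ, ∃ C : ℝ, 0 < C ∧ ∀ L : ℕ, 1 ≤ L →
      ∫ θ in (0 : ℝ)..1, ZV k L v θ ^ ((w : ℝ) / (2 * v)) ≤
        C * (L : ℝ) ^ (((v : ℝ) + 1) * ((w : ℝ) / (2 * v)) -
          k * min 1 (((w : ℝ) / (2 * v)) / 2) + ε / 2) := by
    intro w
    exact hIZ k v hv hZB ((w : ℝ) / (2 * v)) (ε / 2) (by positivity) (by positivity)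
  choose Cw hCw0 hCw using hC
  obtain ⟨C, hCd⟩ : ∃ C : ℝ, C = ∑ w ∈ Finset.range (d + 1), Cw w := ⟨_, rfl⟩
  have hCle : ∀ w ∈ Finset.range (d + 1), Cw w ≤ C := by
    intro w hw
    rw [hCd]
    exact Finset.single_le_sum (fun i _ => (hCw0 i).le) hw
  have hC0 : 0 < C := lt_of_lt_of_le (hCw0 0) (hCle 0 (Finset.mem_range.mpr (Nat.succ_pos d)))
  refine ⟨4 ^ d * (2 ^ d * (2 ^ d * (2 ^ d * C ^ 2))), by positivity, ?_⟩
  intro L F X T hL hT hF hX hcnt
  have hL1 : (1 : ℝ) ≤ L := by exact_mod_cast hL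
  have hL0 : (0 : ℝ) < L := by linarith
  refine (hRS k d F X T hT hcnt).trans ?_
  -- the terms
  obtain ⟨g, hg⟩ : ∃ g : ℕ → ℝ, g = fun w : ℕ =>
    (min (F.card : ℝ) ((6 * (L : ℝ)) ^ w)) ^ (1 - 1 / (v : ℝ)) *
    (L : ℝ) ^ ((d : ℝ) + w / v - 2 * k * min 1 ((w : ℝ) / (4 * v)) + ε) := ⟨_, rfl⟩
  have hg0 : ∀ w, 0 ≤ g w := by
    intro w
    rw [hg]
    positivity
  have hgoal : (∑ w ∈ Finset.range (d + 1),
      (min (F.card : ℝ) ((6 * (L : ℝ)) ^ w)) ^ (1 - 1 / (v : ℝ)) *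
      (L : ℝ) ^ ((d : ℝ) + w / v - 2 * k * min 1 ((w : ℝ) / (4 * v)) + ε)) =
      ∑ w ∈ Finset.range (d + 1), g w := by rw [hg]
  rw [hgoal]
  -- one sign pattern
  have hone : ∀ c : Fin d → Bool,
      (∫ θ in (0 : ℝ)..1, Real.sqrt (∑ x ∈ X, ‖GS k F c θ x‖ ^ 2)) ^ 2 ≤
      2 ^ d * (2 ^ d * C ^ 2) * (F.card * ∑ w ∈ Finset.range (d + 1), g w) := by
    intro c
    obtain ⟨aZ, haZ⟩ : ∃ aZ : Finset (Fin d) → ℝ, aZ = fun Z => (L : ℝ) ^ Z.card * F.card *
      (min (F.card : ℝ) ((6 * (L : ℝ)) ^ (d - Z.card))) ^ (1 - 1 / (v : ℝ)) := ⟨_, rfl⟩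
    have haZ0 : ∀ Z, 0 ≤ aZ Z := by
      intro Z
      rw [haZ]
      positivity
    have hpt : ∀ θ : ℝ, Real.sqrt (∑ x ∈ X, ‖GS k F c θ x‖ ^ 2) ≤
        ∑ Z : Finset (Fin d), Real.sqrt (aZ Z) *
          ZV k L v θ ^ ((((d - Z.card : ℕ) : ℝ)) / (2 * v)) := by
      intro θ
      have h1 := hRW k d L F X c θ hL hF hX
      have h2 := hRH d L v (fun h => UU k L θ h) (fun i => sg (c i)) F hL hv (by
        intro i
        unfold sg
        by_cases hc : c i = true
        · rw [if_pos hc]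
          exact Or.inl rfl
        · rw [if_neg hc]
          exact Or.inr rfl) (by
        intro h
        show 0 ≤ UU k L θ h
        unfold UU
        by_cases hh : h = 0
        · rw [if_pos hh]
          exact hL0.le
        · rw [if_neg hh]
          exact ((hV2 k L h hL).1 θ).1) (by
        show UU k L θ 0 = L
        unfold UU
        rw [if_pos rfl]) hF
      have h3 : (∑ h ∈ HH L, (fun h => UU k L θ h) h ^ v) = ZV k L v θ := by
        unfold ZV
        refine Finset.sum_congr rfl fun h hh => ?_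
        have : h ≠ 0 := (Finset.mem_erase.mp hh).1
        show UU k L θ h ^ v = _
        unfold UU
        rw [if_neg this]
      rw [h3] at h2
      refine (Real.sqrt_le_sqrt (h1.trans h2)).trans ((sqrt_sum_le _ _ ?_).trans (le_of_eq ?_))
      · intro Z _
        have h4 := ZV_nonneg hV2 k L v hL θ
        positivity
      · refine Finset.sum_congr rfl fun Z _ => ?_
        have h4 := ZV_nonneg hV2 k L v hL θ
        have h5 : (L : ℝ) ^ Z.card * F.card *
            (min (F.card : ℝ) ((6 * (L : ℝ)) ^ (d - Z.card))) ^ (1 - 1 / (v : ℝ)) = aZ Z := by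
          rw [haZ]
        rw [h5, Real.sqrt_mul (haZ0 Z)]
        congr 1
        rw [Real.sqrt_eq_rpow, ← Real.rpow_mul h4]
        congr 1
        field_simp
    have hint : (∫ θ in (0 : ℝ)..1, Real.sqrt (∑ x ∈ X, ‖GS k F c θ x‖ ^ 2)) ≤
        ∑ Z : Finset (Fin d), Real.sqrt (aZ Z) * (C * (L : ℝ) ^ (((v : ℝ) + 1) *
          ((((d - Z.card : ℕ) : ℝ)) / (2 * v)) -
          k * min 1 (((((d - Z.card : ℕ) : ℝ)) / (2 * v)) / 2) + ε / 2)) := by
      have hc1 : ∀ Z : Finset (Fin d), Continuous fun θ : ℝ => Real.sqrt (aZ Z) *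
          ZV k L v θ ^ ((((d - Z.card : ℕ) : ℝ)) / (2 * v)) := by
        intro Z
        refine continuous_const.mul ((ZV_cont hV2 k L v hL).rpow_const fun θ => Or.inr ?_)
        positivity
      have hc2 : Continuous fun θ : ℝ => Real.sqrt (∑ x ∈ X, ‖GS k F c θ x‖ ^ 2) := by
        refine Real.continuous_sqrt.comp (continuous_finsetSum _ fun x _ => ?_)
        exact ((GS_cont k d F c x).norm).pow 2
      calc (∫ θ in (0 : ℝ)..1, Real.sqrt (∑ x ∈ X, ‖GS k F c θ x‖ ^ 2))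
          ≤ ∫ θ in (0 : ℝ)..1, ∑ Z : Finset (Fin d), Real.sqrt (aZ Z) *
              ZV k L v θ ^ ((((d - Z.card : ℕ) : ℝ)) / (2 * v)) := by
            refine intervalIntegral.integral_mono_on (by norm_num)
              (hc2.intervalIntegrable _ _)
              ((continuous_finsetSum _ fun Z _ => hc1 Z).intervalIntegrable _ _) ?_
            intro θ _
            exact hpt θ
        _ = ∑ Z : Finset (Fin d), ∫ θ in (0 : ℝ)..1, Real.sqrt (aZ Z) *
              ZV k L v θ ^ ((((d - Z.card : ℕ) : ℝ)) / (2 * v)) :=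
            intervalIntegral.integral_finsetSum fun Z _ => (hc1 Z).intervalIntegrable _ _
        _ ≤ _ := by
            refine Finset.sum_le_sum fun Z _ => ?_
            rw [intervalIntegral.integral_const_mul]
            refine mul_le_mul_of_nonneg_left ?_ (Real.sqrt_nonneg _)
            refine (hCw (d - Z.card) L hL).trans (mul_le_mul_of_nonneg_right ?_ (by positivity))
            exact hCle _ (Finset.mem_range.mpr (by omega))
    have hI0 : 0 ≤ ∫ θ in (0 : ℝ)..1, Real.sqrt (∑ x ∈ X, ‖GS k F c θ x‖ ^ 2) :=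
      intervalIntegral.integral_nonneg (by norm_num) fun θ _ => Real.sqrt_nonneg _
    have hsq : (∫ θ in (0 : ℝ)..1, Real.sqrt (∑ x ∈ X, ‖GS k F c θ x‖ ^ 2)) ^ 2 ≤
        2 ^ d * ∑ Z : Finset (Fin d), (Real.sqrt (aZ Z) * (C * (L : ℝ) ^ (((v : ℝ) + 1) *
          ((((d - Z.card : ℕ) : ℝ)) / (2 * v)) -
          k * min 1 (((((d - Z.card : ℕ) : ℝ)) / (2 * v)) / 2) + ε / 2))) ^ 2 := by
      refine (pow_le_pow_left₀ hI0 hint 2).trans ?_
      have h1 := sq_sum_le_card_mul_sum_sq (s := (Finset.univ : Finset (Finset (Fin d))))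
        (f := fun Z => Real.sqrt (aZ Z) * (C * (L : ℝ) ^ (((v : ℝ) + 1) *
          ((((d - Z.card : ℕ) : ℝ)) / (2 * v)) -
          k * min 1 (((((d - Z.card : ℕ) : ℝ)) / (2 * v)) / 2) + ε / 2)))
      rw [Finset.card_univ, Fintype.card_finset, Fintype.card_fin] at h1
      push_cast at h1
      exact h1
    have hterm : ∀ Z : Finset (Fin d), (Real.sqrt (aZ Z) * (C * (L : ℝ) ^ (((v : ℝ) + 1) *
          ((((d - Z.card : ℕ) : ℝ)) / (2 * v)) -
          k * min 1 (((((d - Z.card : ℕ) : ℝ)) / (2 * v)) / 2) + ε / 2))) ^ 2 ≤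
        C ^ 2 * (F.card * ∑ w ∈ Finset.range (d + 1), g w) := by
      intro Z
      have hZc : Z.card ≤ d := by
        have := Finset.card_le_univ Z
        rwa [Fintype.card_fin] at this
      have h1 : (Real.sqrt (aZ Z) * (C * (L : ℝ) ^ (((v : ℝ) + 1) *
          ((((d - Z.card : ℕ) : ℝ)) / (2 * v)) -
          k * min 1 (((((d - Z.card : ℕ) : ℝ)) / (2 * v)) / 2) + ε / 2))) ^ 2 =
          C ^ 2 * (F.card * g (d - Z.card)) := by
        rw [mul_pow, Real.sq_sqrt (haZ0 Z), mul_pow, ← Real.rpow_natCast (_ ^ _) 2,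
          ← Real.rpow_mul hL0.le, haZ, hg]
        show (L : ℝ) ^ Z.card * F.card *
          (min (F.card : ℝ) ((6 * (L : ℝ)) ^ (d - Z.card))) ^ (1 - 1 / (v : ℝ)) * (C ^ 2 * _) = _
        have h2 : (L : ℝ) ^ Z.card * (L : ℝ) ^ ((((v : ℝ) + 1) *
          ((((d - Z.card : ℕ) : ℝ)) / (2 * v)) -
          k * min 1 (((((d - Z.card : ℕ) : ℝ)) / (2 * v)) / 2) + ε / 2) * ((2 : ℕ) : ℝ)) =
          (L : ℝ) ^ ((d : ℝ) + ((d - Z.card : ℕ) : ℝ) / v -
            2 * k * min 1 (((d - Z.card : ℕ) : ℝ) / (4 * v)) + ε) := by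
          rw [← Real.rpow_natCast (L : ℝ) Z.card, ← Real.rpow_add hL0]
          congr 1
          have e1 : (((d - Z.card : ℕ) : ℝ) / (2 * v)) / 2 = ((d - Z.card : ℕ) : ℝ) / (4 * v) := by
            rw [div_div]
            congr 1
            ring
          rw [e1]
          have e2 : ((v : ℝ) + 1) * (((d - Z.card : ℕ) : ℝ) / (2 * v)) * 2 =
              ((d - Z.card : ℕ) : ℝ) + ((d - Z.card : ℕ) : ℝ) / v := by
            field_simp
          have e3 : ((d - Z.card : ℕ) : ℝ) = (d : ℝ) - Z.card := by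
            push_cast [Nat.cast_sub hZc]
            ring
          push_cast
          linarith
        beta_reduce
        rw [← h2]
        ring
      rw [h1]
      refine mul_le_mul_of_nonneg_left (mul_le_mul_of_nonneg_left ?_ (Nat.cast_nonneg _))
        (by positivity)
      exact Finset.single_le_sum (fun w _ => hg0 w) (Finset.mem_range.mpr (by omega))
    calc (∫ θ in (0 : ℝ)..1, Real.sqrt (∑ x ∈ X, ‖GS k F c θ x‖ ^ 2)) ^ 2
        ≤ 2 ^ d * ∑ Z : Finset (Fin d), (Real.sqrt (aZ Z) * (C * (L : ℝ) ^ (((v : ℝ) + 1) *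
          ((((d - Z.card : ℕ) : ℝ)) / (2 * v)) -
          k * min 1 (((((d - Z.card : ℕ) : ℝ)) / (2 * v)) / 2) + ε / 2))) ^ 2 := hsq
      _ ≤ 2 ^ d * ∑ _Z : Finset (Fin d), C ^ 2 * (F.card * ∑ w ∈ Finset.range (d + 1), g w) :=
          mul_le_mul_of_nonneg_left (Finset.sum_le_sum fun Z _ => hterm Z) (by positivity)
      _ = 2 ^ d * (2 ^ d * C ^ 2) * (F.card * ∑ w ∈ Finset.range (d + 1), g w) := by
          rw [Finset.sum_const, Finset.card_univ, Fintype.card_finset, Fintype.card_fin,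
            nsmul_eq_mul]
          push_cast
          ring
  calc 4 ^ d * ∑ c : Fin d → Bool,
        (∫ θ in (0 : ℝ)..1, Real.sqrt (∑ x ∈ X, ‖GS k F c θ x‖ ^ 2)) ^ 2
      ≤ 4 ^ d * ∑ _c : Fin d → Bool,
          2 ^ d * (2 ^ d * C ^ 2) * (F.card * ∑ w ∈ Finset.range (d + 1), g w) :=
        mul_le_mul_of_nonneg_left (Finset.sum_le_sum fun c _ => hone c) (by positivity)
    _ = 4 ^ d * (2 ^ d * (2 ^ d * (2 ^ d * C ^ 2))) * F.card * ∑ w ∈ Finset.range (d + 1), g w := by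
        rw [Finset.sum_const, Finset.card_univ, Fintype.card_fun, Fintype.card_bool,
          Fintype.card_fin, nsmul_eq_mul]
        push_cast
        ring

end Pool.Agent.H32.KS2
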